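import Pool.Agent.helper32.QS.Spec

set_option autoImplicit false

namespace QS

open scoped BigOperators

theorem QPR_ext {V : Type} [AddCommGroup V] (S T : AddMonoid.End V) (h : ∀ v, S v = T v) :
    S = T := AddMonoidHom.ext h

/-- conjugation by `h` in `End V` -/
def QPR_cj {H V : Type} [Group H] [AddCommGroup V] [DistribMulAction H V] (h : H)
    (T : AddMonoid.End V) : AddMonoid.End V :=
  DistribMulAction.toAddMonoidEnd H V h * T * DistribMulAction.toAddMonoidEnd H V h⁻¹

theorem QPR_cj_apply {H V : Type} [Group H] [AddCommGroup V] [DistribMulAction H V] (h : H)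
    (T : AddMonoid.End V) (v : V) : QPR_cj h T v = h • T (h⁻¹ • v) := rfl

theorem QPR_cj_mul {H V : Type} [Group H] [AddCommGroup V] [DistribMulAction H V] (h : H)
    (S T : AddMonoid.End V) : QPR_cj h (S * T) = QPR_cj h S * QPR_cj h T := by
  apply QPR_ext
  intro v
  have h1 : (QPR_cj h S * QPR_cj h T) v = QPR_cj h S (QPR_cj h T v) := rfl
  rw [h1]
  simp only [QPR_cj_apply]
  rw [inv_smul_smul]
  rfl

theorem QPR_cj_zero {H V : Type} [Group H] [AddCommGroup V] [DistribMulAction H V] (h : H) :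
    QPR_cj h (0 : AddMonoid.End V) = 0 := by
  apply QPR_ext
  intro v
  rw [QPR_cj_apply]
  exact smul_zero h

theorem QPR_cj_one {H V : Type} [Group H] [AddCommGroup V] [DistribMulAction H V] (h : H) :
    QPR_cj h (1 : AddMonoid.End V) = 1 := by
  apply QPR_ext
  intro v
  rw [QPR_cj_apply]
  exact smul_inv_smul h v

theorem QPR_cj_pow {H V : Type} [Group H] [AddCommGroup V] [DistribMulAction H V] (h : H)
    (S : AddMonoid.End V) (n : ℕ) : QPR_cj h (S ^ n) = QPR_cj h S ^ n := by
  induction n with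
  | zero => simp only [pow_zero]; exact QPR_cj_one h
  | succ n ih => rw [pow_succ, pow_succ, QPR_cj_mul, ih]

theorem QPR_cj_add {H V : Type} [Group H] [AddCommGroup V] [DistribMulAction H V] (h : H)
    (S T : AddMonoid.End V) : QPR_cj h (S + T) = QPR_cj h S + QPR_cj h T := by
  apply QPR_ext
  intro v
  have h1 : (QPR_cj h S + QPR_cj h T) v = QPR_cj h S v + QPR_cj h T v := rfl
  rw [h1]
  simp only [QPR_cj_apply]
  have h2 : (S + T) (h⁻¹ • v) = S (h⁻¹ • v) + T (h⁻¹ • v) := rfl
  rw [h2, smul_add]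

theorem QPR_cj_neg {H V : Type} [Group H] [AddCommGroup V] [DistribMulAction H V] (h : H)
    (S : AddMonoid.End V) : QPR_cj h (-S) = -QPR_cj h S := by
  apply QPR_ext
  intro v
  have h1 : (-QPR_cj h S) v = -(QPR_cj h S v) := rfl
  rw [h1]
  simp only [QPR_cj_apply]
  have h2 : (-S) (h⁻¹ • v) = -(S (h⁻¹ • v)) := rfl
  rw [h2, smul_neg]

theorem QPR_cj_cj {H V : Type} [Group H] [AddCommGroup V] [DistribMulAction H V] (g h : H)
    (S : AddMonoid.End V) : QPR_cj g (QPR_cj h S) = QPR_cj (g * h) S := by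
  apply QPR_ext
  intro v
  simp only [QPR_cj_apply]
  rw [mul_inv_rev, mul_smul, mul_smul]

theorem QPR_cj_id {H V : Type} [Group H] [AddCommGroup V] [DistribMulAction H V]
    (S : AddMonoid.End V) : QPR_cj (1 : H) S = S := by
  apply QPR_ext
  intro v
  simp only [QPR_cj_apply]
  rw [inv_one, one_smul, one_smul]

theorem QPR_cj_ne {H V : Type} [Group H] [AddCommGroup V] [DistribMulAction H V] (h : H)
    (S : AddMonoid.End V) (hS : S ≠ 0) : QPR_cj h S ≠ 0 := by
  intro h0
  apply hS
  have h1 : QPR_cj h⁻¹ (QPR_cj h S) = S := by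
    rw [QPR_cj_cj, inv_mul_cancel, QPR_cj_id]
  rw [← h1, h0, QPR_cj_zero]

theorem QPR_comm {H V : Type} [Group H] [AddCommGroup V] [DistribMulAction H V]
    (A : Subgroup H) (hA : ∀ a ∈ A, ∀ b ∈ A, a * b = b * a)
    (S : AddMonoid.End V) (hS : S ∈ RngOf H V A) (T : AddMonoid.End V)
    (hT : T ∈ RngOf H V A) : S * T = T * S := by
  have key : ∀ U ∈ RngOf H V A, ∀ a ∈ A,
      U * DistribMulAction.toAddMonoidEnd H V a = DistribMulAction.toAddMonoidEnd H V a * U := by
    intro U hU a ha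
    refine Subring.closure_induction (p := fun U _ =>
      U * DistribMulAction.toAddMonoidEnd H V a = DistribMulAction.toAddMonoidEnd H V a * U)
      ?_ ?_ ?_ ?_ ?_ ?_ hU
    · rintro x ⟨b, hb, rfl⟩
      show DistribMulAction.toAddMonoidEnd H V b * DistribMulAction.toAddMonoidEnd H V a =
        DistribMulAction.toAddMonoidEnd H V a * DistribMulAction.toAddMonoidEnd H V b
      rw [← map_mul, ← map_mul, hA b hb a ha]
    · rw [zero_mul, mul_zero]
    · rw [one_mul, mul_one]
    · intro x y _ _ hx hy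
      rw [add_mul, mul_add, hx, hy]
    · intro x _ hx
      rw [neg_mul, mul_neg, hx]
    · intro x y _ _ hx hy
      rw [mul_assoc, hy, ← mul_assoc, hx, mul_assoc]
  refine Subring.closure_induction (p := fun T _ => S * T = T * S)
      ?_ ?_ ?_ ?_ ?_ ?_ hT
  · rintro x ⟨b, hb, rfl⟩
    exact key S hS b hb
  · rw [zero_mul, mul_zero]
  · rw [one_mul, mul_one]
  · intro x y _ _ hx hy
    rw [add_mul, mul_add, hx, hy]
  · intro x _ hx
    rw [neg_mul, mul_neg, hx]
  · intro x y _ _ hx hy
    rw [← mul_assoc, hx, mul_assoc, hy, mul_assoc]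

theorem QPR_stab {H V : Type} [Group H] [AddCommGroup V] [DistribMulAction H V]
    (A : Subgroup H) (hN : A.Normal) (h : H)
    (T : AddMonoid.End V) (hT : T ∈ RngOf H V A) : QPR_cj h T ∈ RngOf H V A := by
  refine Subring.closure_induction (p := fun T _ => QPR_cj h T ∈ RngOf H V A)
      ?_ ?_ ?_ ?_ ?_ ?_ hT
  · rintro x ⟨b, hb, rfl⟩
    refine Subring.subset_closure ⟨h * b * h⁻¹, hN.conj_mem b hb h, ?_⟩
    show DistribMulAction.toAddMonoidEnd H V (h * b * h⁻¹) =
      DistribMulAction.toAddMonoidEnd H V h * DistribMulAction.toAddMonoidEnd H V b *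
        DistribMulAction.toAddMonoidEnd H V h⁻¹
    rw [map_mul, map_mul]
  · rw [QPR_cj_zero]; exact Subring.zero_mem _
  · rw [QPR_cj_one]; exact Subring.one_mem _
  · intro x y _ _ hx hy
    rw [QPR_cj_add]; exact Subring.add_mem _ hx hy
  · intro x _ hx
    rw [QPR_cj_neg]; exact Subring.neg_mem _ hx
  · intro x y _ _ hx hy
    rw [QPR_cj_mul]; exact Subring.mul_mem _ hx hy

theorem QPR_pow {V : Type} [AddCommGroup V] [Finite V] (T : AddMonoid.End V) :
    ∃ N : ℕ, 1 ≤ N ∧ T ^ N * T ^ N = T ^ N := by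
  have : Finite (AddMonoid.End V) :=
    Finite.of_injective (fun (f : AddMonoid.End V) (v : V) => f v)
      (fun f g hfg => QPR_ext _ _ (fun v => congrFun hfg v))
  obtain ⟨m, n, hmn, hT⟩ := Finite.exists_ne_map_eq_of_infinite (fun n : ℕ => T ^ n)
  have key : ∀ m n : ℕ, m < n → T ^ m = T ^ n → ∃ N : ℕ, 1 ≤ N ∧ T ^ N * T ^ N = T ^ N := by
    intro m n hlt hT
    obtain ⟨d, rfl⟩ : ∃ d, n = m + d := ⟨n - m, by omega⟩
    have h1 : ∀ j : ℕ, T ^ (m + j + d) = T ^ (m + j) := by
      intro j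
      have : m + j + d = (m + d) + j := by ring
      rw [this, pow_add, ← hT, ← pow_add]
    have h2 : ∀ k j : ℕ, T ^ (m + j + k * d) = T ^ (m + j) := by
      intro k
      induction k with
      | zero => intro j; rw [zero_mul, add_zero]
      | succ k ih =>
        intro j
        have : m + j + (k + 1) * d = m + (j + k * d) + d := by ring
        rw [this, h1]
        have : m + (j + k * d) = m + j + k * d := by ring
        rw [this, ih]
    have hd : 1 ≤ d := by omega
    refine ⟨(m + 1) * d, Nat.one_le_iff_ne_zero.mpr (by positivity), ?_⟩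
    rw [← pow_add]
    have h3 : m ≤ (m + 1) * d := by nlinarith
    obtain ⟨j, hj⟩ := Nat.exists_eq_add_of_le h3
    have h4 := h2 (m + 1) j
    rw [← hj] at h4
    exact h4
  rcases lt_or_gt_of_ne hmn with h | h
  · exact key m n h hT
  · exact key n m h hT.symm

theorem QPR_nilp {H V : Type} [Group H] [AddCommGroup V] [DistribMulAction H V] [Finite V]
    [Nontrivial V] (hirr : Irr H V)
    (A : Subgroup H) (hN : A.Normal) (hA : ∀ a ∈ A, ∀ b ∈ A, a * b = b * a)
    (T : AddMonoid.End V) (hT : T ∈ RngOf H V A) (n : ℕ) (hn : T ^ n = 0) : T = 0 := by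
  let W : AddSubgroup V :=
    { carrier := {v | ∀ S ∈ RngOf H V A, (∃ k : ℕ, S ^ k = 0) → S v = 0}
      zero_mem' := by
        intro S _ _
        exact map_zero S
      add_mem' := by
        intro a b ha hb S hS hk
        have h1 : S (a + b) = S a + S b := map_add S a b
        rw [h1, ha S hS hk, hb S hS hk, add_zero]
      neg_mem' := by
        intro a ha S hS hk
        have h1 : S (-a) = -(S a) := map_neg S a
        rw [h1, ha S hS hk, neg_zero] }
  have hW : ∀ (h : H), ∀ v ∈ W, h • v ∈ W := by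
    intro h v hv S hS hk
    obtain ⟨k, hk⟩ := hk
    have h1 : QPR_cj h⁻¹ S v = 0 := by
      apply hv (QPR_cj h⁻¹ S) (QPR_stab A hN h⁻¹ S hS)
      exact ⟨k, by rw [← QPR_cj_pow, hk, QPR_cj_zero]⟩
    rw [QPR_cj_apply, inv_inv] at h1
    have h2 := congrArg (fun x => h • x) h1
    simpa using h2
  have hne : W ≠ ⊥ := by
    let Rv : V → Set V := fun v => {w | ∃ S ∈ RngOf H V A, w = S v}
    obtain ⟨v0, hv0⟩ := exists_ne (0 : V)
    obtain ⟨v, hv, hmin⟩ := Set.exists_min_image {v : V | v ≠ 0} (fun v => (Rv v).ncard)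
      (Set.toFinite _) ⟨v0, hv0⟩
    intro hbot
    have hvW : v ∈ W := by
      intro S hS hk
      by_contra hSv
      obtain ⟨k, hk⟩ := hk
      have hsub : Rv (S v) ⊆ Rv v := by
        rintro w ⟨S', hS', rfl⟩
        exact ⟨S' * S, Subring.mul_mem _ hS' hS, rfl⟩
      have heq := Set.eq_of_subset_of_ncard_le hsub (hmin (S v) hSv) (Set.toFinite _)
      have h1 : v ∈ Rv v := ⟨1, Subring.one_mem _, rfl⟩
      rw [← heq] at h1
      obtain ⟨S', hS', hvS⟩ := h1
      have h2 : ∀ j : ℕ, ((S' * S) ^ j) v = v := by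
        intro j
        induction j with
        | zero => rfl
        | succ j ih =>
          have h3 : ((S' * S) ^ (j + 1)) v = ((S' * S) ^ j) (S' (S v)) := by
            rw [pow_succ]; rfl
          rw [h3, ← hvS, ih]
      have h4 : Commute S' S := QPR_comm A hA S' hS' S hS
      have h5 := h2 k
      rw [h4.mul_pow, hk, mul_zero] at h5
      exact hv h5.symm
    rw [hbot] at hvW
    exact hv hvW
  rcases hirr W hW with h | h
  · exact absurd h hne
  · apply QPR_ext
    intro v
    have : v ∈ W := by rw [h]; trivial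
    exact this T hT ⟨n, hn⟩

theorem QPR_nonzero {V : Type} [AddCommGroup V] (T : AddMonoid.End V) (hT : T ≠ 0) :
    ∃ v, T v ≠ 0 := by
  by_contra h
  push Not at h
  exact hT (QPR_ext _ _ h)

theorem QPR_range_ncard_cj {H V : Type} [Group H] [AddCommGroup V] [DistribMulAction H V]
    (h : H) (e : AddMonoid.End V) :
    (Set.range (QPR_cj h e)).ncard = (Set.range e).ncard := by
  have h1 : Set.range (QPR_cj h e) = (fun v => h • v) '' (Set.range e) := by
    ext w
    constructor
    · rintro ⟨v, rfl⟩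
      exact ⟨e (h⁻¹ • v), ⟨_, rfl⟩, rfl⟩
    · rintro ⟨_, ⟨v, rfl⟩, rfl⟩
      refine ⟨h • v, ?_⟩
      rw [QPR_cj_apply, inv_smul_smul]
  rw [h1]
  exact Set.ncard_image_of_injective _ (MulAction.injective h)

theorem QPR_sum_apply {V : Type} [AddCommGroup V] {ι : Type} (s : Finset ι)
    (F : ι → AddMonoid.End V) (v : V) : (∑ f ∈ s, F f) v = ∑ f ∈ s, F f v := by
  classical
  induction s using Finset.induction_on with
  | empty => rfl
  | insert a s ha ih =>
    rw [Finset.sum_insert ha, Finset.sum_insert ha, ← ih]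
    rfl

theorem QPR : QPR_stmt := by
  classical
  intro V _ _ H _ _ _ hnt hirr himp A hN hA T hT hT0
  by_contra hinj
  apply himp
  obtain ⟨N, hN1, hNN⟩ := QPR_pow T
  have hTN : T ^ N ∈ RngOf H V A := Subring.pow_mem _ hT N
  have hTN0 : T ^ N ≠ 0 := fun h0 => hT0 (QPR_nilp hirr A hN hA T hT N h0)
  have hTN1 : T ^ N ≠ 1 := by
    intro h1
    apply hinj
    obtain ⟨M, rfl⟩ : ∃ M, N = M + 1 := ⟨N - 1, by omega⟩
    intro a b hab
    have h2 : ∀ v, (T ^ M) (T v) = v := by
      intro v
      have h3 : (T ^ (M + 1)) v = (T ^ M) (T v) := by rw [pow_succ]; rfl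
      rw [← h3, h1]; rfl
    rw [← h2 a, ← h2 b, hab]
  have : Finite (AddMonoid.End V) :=
    Finite.of_injective (fun (f : AddMonoid.End V) (v : V) => f v)
      (fun f g hfg => QPR_ext _ _ (fun v => congrFun hfg v))
  obtain ⟨e, ⟨heR, hee, he0⟩, hemin⟩ := Set.exists_min_image
    {e : AddMonoid.End V | e ∈ RngOf H V A ∧ e * e = e ∧ e ≠ 0} (fun e => (Set.range e).ncard)
    (Set.toFinite _) ⟨T ^ N, hTN, hNN, hTN0⟩
  have he1 : e ≠ 1 := by
    intro h1
    have h2 := hemin (T ^ N) ⟨hTN, hNN, hTN0⟩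
    have h3 : Set.range e = Set.univ := by
      rw [h1]
      ext v
      exact ⟨fun _ => trivial, fun _ => ⟨v, rfl⟩⟩
    simp only [h3] at h2
    have h4 : Set.range (T ^ N) = Set.univ :=
      Set.eq_of_subset_of_ncard_le (Set.subset_univ _) h2 (Set.toFinite _)
    apply hTN1
    apply QPR_ext
    intro v
    have h5 : v ∈ Set.range (T ^ N) := by rw [h4]; trivial
    obtain ⟨u, rfl⟩ := h5
    have h6 : (T ^ N * T ^ N) u = (T ^ N) ((T ^ N) u) := rfl
    rw [← h6, hNN]; rfl
  -- the conjugates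
  let P : AddMonoid.End V → Prop := fun f => ∃ h : H, f = QPR_cj h e
  have hPR : ∀ f, P f → f ∈ RngOf H V A := by
    rintro f ⟨h, rfl⟩
    exact QPR_stab A hN h e heR
  have hPi : ∀ f, P f → f * f = f := by
    rintro f ⟨h, rfl⟩
    rw [← QPR_cj_mul, hee]
  have hP0 : ∀ f, P f → f ≠ 0 := by
    rintro f ⟨h, rfl⟩
    exact QPR_cj_ne h e he0
  have hPn : ∀ f, P f → (Set.range f).ncard = (Set.range e).ncard := by
    rintro f ⟨h, rfl⟩
    exact QPR_range_ncard_cj h e
  have horth : ∀ f g, P f → P g → f ≠ g → f * g = 0 := by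
    intro f g hf hg hfg
    by_contra hne
    apply hfg
    have hcom : f * g = g * f := QPR_comm A hA f (hPR f hf) g (hPR g hg)
    have hid : (f * g) * (f * g) = f * g := by
      calc (f * g) * (f * g) = f * (g * f) * g := by simp only [mul_assoc]
        _ = f * (f * g) * g := by rw [hcom]
        _ = (f * f) * (g * g) := by simp only [mul_assoc]
        _ = f * g := by rw [hPi f hf, hPi g hg]
    have hmem : f * g ∈ RngOf H V A := Subring.mul_mem _ (hPR f hf) (hPR g hg)
    have hle := hemin (f * g) ⟨hmem, hid, hne⟩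
    have hs1 : Set.range (f * g) ⊆ Set.range f := by
      rintro _ ⟨v, rfl⟩
      exact ⟨g v, rfl⟩
    have hs2 : Set.range (f * g) ⊆ Set.range g := by
      rw [hcom]
      rintro _ ⟨v, rfl⟩
      exact ⟨f v, rfl⟩
    have e1 : Set.range (f * g) = Set.range f :=
      Set.eq_of_subset_of_ncard_le hs1 (by rw [hPn f hf]; exact hle) (Set.toFinite _)
    have e2 : Set.range (f * g) = Set.range g :=
      Set.eq_of_subset_of_ncard_le hs2 (by rw [hPn g hg]; exact hle) (Set.toFinite _)
    have h1 : g * f = f := by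
      apply QPR_ext
      intro v
      have : f v ∈ Set.range g := by rw [← e2, e1]; exact ⟨v, rfl⟩
      obtain ⟨u, hu⟩ := this
      have h2 : (g * f) v = g (f v) := rfl
      rw [h2, ← hu]
      have h3 : (g * g) u = g (g u) := rfl
      rw [← h3, hPi g hg]
    have h2 : f * g = g := by
      apply QPR_ext
      intro v
      have : g v ∈ Set.range f := by rw [← e1, e2]; exact ⟨v, rfl⟩
      obtain ⟨u, hu⟩ := this
      have h2 : (f * g) v = f (g v) := rfl
      rw [h2, ← hu]
      have h3 : (f * f) u = f (f u) := rfl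
      rw [← h3, hPi f hf]
    rw [← h1, ← hcom, h2]
  let ι : Type := {f : AddMonoid.End V // P f}
  have : Finite ι := Subtype.finite
  letI : Fintype ι := Fintype.ofFinite ι
  let s : AddMonoid.End V := ∑ f : ι, f.1
  -- multiplication of s by f
  have hfs : ∀ f : ι, f.1 * s = f.1 := by
    intro f
    show f.1 * ∑ g : ι, g.1 = f.1
    rw [Finset.mul_sum, Finset.sum_eq_single f]
    · exact hPi f.1 f.2
    · intro g _ hg
      exact horth f.1 g.1 f.2 g.2 (fun h => hg (Subtype.ext h.symm))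
    · intro h
      exact absurd (Finset.mem_univ f) h
  have hss : s * s = s := by
    have h1 : s * s = ∑ f : ι, f.1 * s := by
      show (∑ f : ι, f.1) * s = _
      rw [Finset.sum_mul]
    rw [h1]
    show ∑ f : ι, f.1 * s = ∑ f : ι, f.1
    exact Finset.sum_congr rfl (fun f _ => hfs f)
  have hPe : P e := ⟨1, (QPR_cj_id e).symm⟩
  have hs0 : s ≠ 0 := by
    intro h0
    have := hfs ⟨e, hPe⟩
    rw [h0, mul_zero] at this
    exact he0 this.symm
  have hPc : ∀ (h : H) (f : AddMonoid.End V), P f → P (QPR_cj h f) := by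
    rintro h f ⟨g, rfl⟩
    exact ⟨h * g, QPR_cj_cj h g e⟩
  have hsum : ∀ (v : V), s v = ∑ f : ι, f.1 v := by
    intro v
    show (∑ f : ι, f.1) v = _
    exact QPR_sum_apply Finset.univ (fun f : ι => f.1) v
  have hsh : ∀ (h : H) (v : V), s (h • v) = h • s v := by
    intro h v
    rw [hsum, hsum, Finset.smul_sum]
    let σ : ι ≃ ι :=
      { toFun := fun f => ⟨QPR_cj h⁻¹ f.1, hPc h⁻¹ f.1 f.2⟩
        invFun := fun f => ⟨QPR_cj h f.1, hPc h f.1 f.2⟩
        left_inv := by
          intro f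
          apply Subtype.ext
          show QPR_cj h (QPR_cj h⁻¹ f.1) = f.1
          rw [QPR_cj_cj, mul_inv_cancel, QPR_cj_id]
        right_inv := by
          intro f
          apply Subtype.ext
          show QPR_cj h⁻¹ (QPR_cj h f.1) = f.1
          rw [QPR_cj_cj, inv_mul_cancel, QPR_cj_id] }
    refine Fintype.sum_equiv σ _ _ ?_
    intro f
    show f.1 (h • v) = h • (QPR_cj h⁻¹ f.1 v)
    rw [QPR_cj_apply, inv_inv, smul_inv_smul]
  have hs1 : ∀ v : V, s v = v := by
    have htop : AddMonoidHom.range (s : V →+ V) = ⊤ := by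
      rcases hirr (AddMonoidHom.range (s : V →+ V)) (by
        rintro h _ ⟨v, rfl⟩
        exact ⟨h • v, hsh h v⟩) with h | h
      · exfalso
        obtain ⟨v, hv⟩ := QPR_nonzero s hs0
        have : s v ∈ AddMonoidHom.range (s : V →+ V) := ⟨v, rfl⟩
        rw [h] at this
        exact hv this
      · exact h
    intro v
    have : v ∈ AddMonoidHom.range (s : V →+ V) := by rw [htop]; trivial
    obtain ⟨u, rfl⟩ := this
    have h1 : (s * s) u = s (s u) := rfl
    show s (s u) = s u
    rw [← h1, hss]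
  refine ⟨ι, inferInstance, fun f => AddMonoidHom.range (f.1 : V →+ V), ?_, ?_, ?_, ?_, ?_⟩
  · by_contra hc
    push Not at hc
    apply he1
    have : Subsingleton ι := Fintype.card_le_one_iff_subsingleton.mp (by omega)
    apply QPR_ext
    intro v
    have h1 := hs1 v
    rw [hsum, Fintype.sum_subsingleton _ (⟨e, hPe⟩ : ι)] at h1
    exact h1
  · intro f hbot
    obtain ⟨v, hv⟩ := QPR_nonzero f.1 (hP0 f.1 f.2)
    have : f.1 v ∈ AddMonoidHom.range (f.1 : V →+ V) := ⟨v, rfl⟩
    simp only [hbot] at this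
    exact hv this
  · intro v
    refine ⟨fun f => f.1 v, fun f => ⟨v, rfl⟩, ?_⟩
    rw [← hsum, hs1]
  · intro x hx hx0 i
    obtain ⟨y, hy⟩ := hx i
    have h1 : i.1 (∑ j, x j) = i.1 (x i) := by
      have h2 : i.1 (∑ j, x j) = ∑ j, i.1 (x j) := map_sum i.1 x Finset.univ
      rw [h2, Finset.sum_eq_single i]
      · intro j _ hj
        obtain ⟨z, hz⟩ := hx j
        rw [← hz]
        have h3 : (i.1 * j.1) z = i.1 (j.1 z) := rfl
        show i.1 (j.1 z) = 0
        rw [← h3, horth i.1 j.1 i.2 j.2 (fun h => hj (Subtype.ext h.symm))]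
        rfl
      · intro h
        exact absurd (Finset.mem_univ i) h
    rw [hx0] at h1
    have h2 : i.1 (0 : V) = 0 := map_zero i.1
    rw [h2] at h1
    have h3 : i.1 (x i) = x i := by
      rw [← hy]
      have h4 : (i.1 * i.1) y = i.1 (i.1 y) := rfl
      show i.1 (i.1 y) = i.1 y
      rw [← h4, hPi i.1 i.2]
    rw [← h3, ← h1]
  · intro h i
    refine ⟨⟨QPR_cj h i.1, hPc h i.1 i.2⟩, ?_⟩
    intro v
    constructor
    · rintro ⟨u, rfl⟩
      refine ⟨h • u, ?_⟩
      show QPR_cj h i.1 (h • u) = h • i.1 u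
      rw [QPR_cj_apply, inv_smul_smul]
    · rintro ⟨u, hu⟩
      refine ⟨h⁻¹ • u, ?_⟩
      have hu' : QPR_cj h i.1 u = h • v := hu
      rw [QPR_cj_apply] at hu'
      exact MulAction.injective h hu'

end QS
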